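import Mathlib

/-! # Project GL of helper269: JOB GL-NTH, auxiliary facts (numerics and the order of 2 modulo powers of 3) -/

set_option autoImplicit false

namespace Pool.Agent.Q92.GL

open Finset Filter

/-! ### the product `∏ (1 + x ^ (2 l + 1))` -/

/-- partial products -/
noncomputable def Pp (x : ℝ) (n : ℕ) : ℝ := ∏ l ∈ range n, (1 + x ^ (2 * l + 1))

/-- the infinite product -/
noncomputable def gp (x : ℝ) : ℝ := ∏' l : ℕ, (1 + x ^ (2 * l + 1))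

lemma Pp_succ (x : ℝ) (n : ℕ) : Pp x (n + 1) = Pp x n * (1 + x ^ (2 * n + 1)) := by
  unfold Pp
  rw [prod_range_succ]

lemma Pp_pos {x : ℝ} (h0 : 0 < x) (n : ℕ) : 0 < Pp x n :=
  prod_pos fun l _ => by positivity

lemma Pp_mono {x : ℝ} (h0 : 0 < x) : Monotone (Pp x) := by
  refine monotone_nat_of_le_succ fun n => ?_
  rw [Pp_succ]
  have h1 := Pp_pos h0 n
  have h2 : 0 < x ^ (2 * n + 1) := by positivity
  nlinarith

/-- the bound of the exponent of the tail -/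
lemma Pp_le {x : ℝ} (h0 : 0 < x) (h1 : x < 1) (L n : ℕ) :
    Pp x (L + n) ≤ Pp x L * Real.exp ((x ^ (2 * L + 1) - x ^ (2 * (L + n) + 1)) / (1 - x ^ 2)) := by
  have hx : 0 < 1 - x ^ 2 := by nlinarith
  induction n with
  | zero => simp
  | succ n ih =>
    rw [← add_assoc, Pp_succ]
    have e : (x ^ (2 * L + 1) - x ^ (2 * (L + n + 1) + 1)) / (1 - x ^ 2) =
        (x ^ (2 * L + 1) - x ^ (2 * (L + n) + 1)) / (1 - x ^ 2) + x ^ (2 * (L + n) + 1) := by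
      field_simp
      ring
    rw [e, Real.exp_add, ← mul_assoc]
    refine mul_le_mul ih ?_ (by positivity) ?_
    · have := Real.add_one_le_exp (x ^ (2 * (L + n) + 1))
      linarith
    · have := Pp_pos h0 L
      positivity

lemma Pp_le' {x : ℝ} (h0 : 0 < x) (h1 : x < 1) (L n : ℕ) :
    Pp x n ≤ Pp x L * Real.exp (x ^ (2 * L + 1) / (1 - x ^ 2)) := by
  have hx : 0 < 1 - x ^ 2 := by nlinarith
  calc Pp x n ≤ Pp x (L + n) := Pp_mono h0 (by omega)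
    _ ≤ _ := Pp_le h0 h1 L n
    _ ≤ _ := by
      have := Pp_pos h0 L
      refine mul_le_mul_of_nonneg_left (Real.exp_le_exp.mpr ?_) this.le
      refine div_le_div_of_nonneg_right ?_ hx.le
      have : 0 < x ^ (2 * (L + n) + 1) := by positivity
      linarith

lemma Pp_tendsto {x : ℝ} (h0 : 0 < x) (h1 : x < 1) : Tendsto (Pp x) atTop (nhds (gp x)) := by
  have hs : Summable fun l : ℕ => x ^ (2 * l + 1) := by
    have h2 : x ^ 2 < 1 := by nlinarith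
    have := (summable_geometric_of_lt_one (by positivity) h2).mul_left x
    refine this.congr fun l => ?_
    rw [← pow_mul, pow_succ]
    ring
  exact (Real.multipliable_one_add_of_summable hs).hasProd.tendsto_prod_nat

lemma le_gp {x : ℝ} (h0 : 0 < x) (h1 : x < 1) (L : ℕ) : Pp x L ≤ gp x :=
  (Pp_mono h0).ge_of_tendsto (Pp_tendsto h0 h1) L

lemma gp_le {x : ℝ} (h0 : 0 < x) (h1 : x < 1) (L : ℕ) :
    gp x ≤ Pp x L * Real.exp (x ^ (2 * L + 1) / (1 - x ^ 2)) :=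
  le_of_tendsto' (Pp_tendsto h0 h1) fun n => Pp_le' h0 h1 L n

lemma gp_pos {x : ℝ} (h0 : 0 < x) (h1 : x < 1) : 0 < gp x :=
  lt_of_lt_of_le (Pp_pos h0 0) (le_gp h0 h1 0)

lemma one_le_gp {x : ℝ} (h0 : 0 < x) (h1 : x < 1) : 1 ≤ gp x := by
  have := le_gp h0 h1 0
  simpa [Pp] using this

/-- lower bound for the inverse -/
lemma inv_gp_ge {x : ℝ} (h0 : 0 < x) (h1 : x < 1) (L : ℕ) :
    (Pp x L)⁻¹ * (1 - x ^ (2 * L + 1) / (1 - x ^ 2)) ≤ (gp x)⁻¹ := by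
  have h2 := gp_le h0 h1 L
  have h3 := gp_pos h0 h1
  have h4 := Pp_pos h0 L
  set t := x ^ (2 * L + 1) / (1 - x ^ 2) with ht
  have h5 : 1 - t ≤ Real.exp (-t) := Real.one_sub_le_exp_neg t
  calc (Pp x L)⁻¹ * (1 - t) ≤ (Pp x L)⁻¹ * Real.exp (-t) :=
        mul_le_mul_of_nonneg_left h5 (by positivity)
    _ = (Pp x L * Real.exp t)⁻¹ := by rw [mul_inv, Real.exp_neg]
    _ ≤ (gp x)⁻¹ := inv_anti₀ h3 h2

lemma inv_gp_le {x : ℝ} (h0 : 0 < x) (h1 : x < 1) (L : ℕ) : (gp x)⁻¹ ≤ (Pp x L)⁻¹ :=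
  inv_anti₀ (Pp_pos h0 L) (le_gp h0 h1 L)

/-! ### the product over the powers of three -/

/-- `2 ^ (- 3 ^ i)` -/
noncomputable def xq (i : ℕ) : ℝ := ((2 : ℝ) ^ (3 ^ i))⁻¹

lemma xq_pos (i : ℕ) : 0 < xq i := by unfold xq; positivity

lemma xq_lt (i : ℕ) : xq i < 1 := by
  unfold xq
  apply inv_lt_one_of_one_lt₀
  exact one_lt_pow₀ (by norm_num) (by positivity)

lemma xq_zero : xq 0 = 1 / 2 := by norm_num [xq]

lemma xq_one : xq 1 = 1 / 8 := by norm_num [xq]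

lemma xq_two : xq 2 = 1 / 512 := by norm_num [xq]

lemma xq_le (i : ℕ) : xq (3 + i) ≤ 1 / 2 ^ 27 / 2 ^ i := by
  have h1 : 27 + i ≤ 3 ^ (3 + i) := by
    have h2 : 27 * 3 ^ i = 3 ^ (3 + i) := by rw [pow_add]; norm_num
    have h3 : i + 1 ≤ 3 ^ i := Nat.lt_pow_self (by norm_num)
    omega
  unfold xq
  rw [div_div, ← pow_add, one_div]
  apply inv_anti₀ (by positivity)
  exact pow_le_pow_right₀ (by norm_num) h1

/-- the partial products of the inverses -/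
noncomputable def Rp (m : ℕ) : ℝ := ∏ i ∈ range m, (gp (xq i))⁻¹

lemma Rp_succ (m : ℕ) : Rp (m + 1) = Rp m * (gp (xq m))⁻¹ := by
  unfold Rp
  rw [prod_range_succ]

lemma Rp_pos (m : ℕ) : 0 < Rp m := prod_pos fun i _ => inv_pos.mpr (gp_pos (xq_pos i) (xq_lt i))

lemma Rp_le (m : ℕ) : Rp (3 + m) ≤ Rp 3 := by
  induction m with
  | zero => simp
  | succ m ih =>
    rw [← add_assoc, Rp_succ]
    have h1 : (gp (xq (3 + m)))⁻¹ ≤ 1 := inv_le_one_of_one_le₀ (one_le_gp (xq_pos _) (xq_lt _))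
    have h2 := Rp_pos (3 + m)
    nlinarith

lemma Rp_ge (m : ℕ) : Rp 3 * (1 - 4 / 2 ^ 27 * (1 - 1 / 2 ^ m)) ≤ Rp (3 + m) := by
  induction m with
  | zero => simp
  | succ m ih =>
    rw [← add_assoc, Rp_succ (3 + m)]
    have h2 := Rp_pos 3
    have h3 := inv_gp_ge (xq_pos (3 + m)) (xq_lt (3 + m)) 0
    have h4 : Pp (xq (3 + m)) 0 = 1 := by simp [Pp]
    rw [h4, inv_one, one_mul, mul_zero, zero_add, pow_one] at h3
    have h5 := xq_le m
    have h6 := xq_pos (3 + m)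
    have h2m : (1 : ℝ) / 2 ^ m ≤ 1 := by
      rw [div_le_one (by positivity)]
      exact one_le_pow₀ (by norm_num)
    have h2m0 : (0 : ℝ) < 1 / 2 ^ m := by positivity
    have h7 : xq (3 + m) / (1 - xq (3 + m) ^ 2) ≤ 2 / 2 ^ 27 * (1 / 2 ^ m) := by
      have h8 : xq (3 + m) ≤ 1 / 2 := by
        calc xq (3 + m) ≤ 1 / 2 ^ 27 / 2 ^ m := h5
          _ = 1 / 2 ^ 27 * (1 / 2 ^ m) := by ring
          _ ≤ 1 / 2 := by nlinarith
      have h9 : (1 : ℝ) / 2 ≤ 1 - xq (3 + m) ^ 2 := by nlinarith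
      rw [div_le_iff₀ (by linarith)]
      have h10 : xq (3 + m) ≤ 1 / 2 ^ 27 * (1 / 2 ^ m) := by
        calc xq (3 + m) ≤ 1 / 2 ^ 27 / 2 ^ m := h5
          _ = 1 / 2 ^ 27 * (1 / 2 ^ m) := by ring
      nlinarith
    have h11 : 1 - 2 / 2 ^ 27 * (1 / 2 ^ m) ≤ (gp (xq (3 + m)))⁻¹ := by linarith
    have h12 : 0 ≤ 1 - 4 / 2 ^ 27 * (1 - 1 / (2 : ℝ) ^ m) := by nlinarith
    calc Rp 3 * (1 - 4 / 2 ^ 27 * (1 - 1 / 2 ^ (m + 1)))
        ≤ Rp 3 * (1 - 4 / 2 ^ 27 * (1 - 1 / 2 ^ m)) * (1 - 2 / 2 ^ 27 * (1 / 2 ^ m)) := by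
          rw [mul_assoc]
          refine mul_le_mul_of_nonneg_left ?_ h2.le
          have e : (1 : ℝ) / 2 ^ (m + 1) = 1 / 2 * (1 / 2 ^ m) := by rw [pow_succ]; ring
          rw [e]
          set y := (1 : ℝ) / 2 ^ m with hy
          nlinarith
      _ ≤ Rp (3 + m) * (gp (xq (3 + m)))⁻¹ := by
          refine mul_le_mul ih h11 ?_ (Rp_pos _).le
          nlinarith

lemma Rp3_lt : Rp 3 < 0.5036 := by
  have e : Rp 3 = (gp (1 / 2))⁻¹ * (gp (1 / 8))⁻¹ * (gp (1 / 512))⁻¹ := by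
    unfold Rp
    rw [prod_range_succ, prod_range_succ, prod_range_succ, prod_range_zero, one_mul, xq_zero, xq_one,
      xq_two]
  have h1 := inv_gp_le (x := 1 / 2) (by norm_num) (by norm_num) 8
  have h2 := inv_gp_le (x := 1 / 8) (by norm_num) (by norm_num) 2
  have h3 := inv_gp_le (x := 1 / 512) (by norm_num) (by norm_num) 1
  have g1 : 0 < gp (1 / 2) := gp_pos (by norm_num) (by norm_num)
  have g2 : 0 < gp (1 / 8) := gp_pos (by norm_num) (by norm_num)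
  have g3 : 0 < gp (1 / 512) := gp_pos (by norm_num) (by norm_num)
  rw [e]
  calc (gp (1 / 2))⁻¹ * (gp (1 / 8))⁻¹ * (gp (1 / 512))⁻¹ ≤
        (Pp (1 / 2) 8)⁻¹ * (Pp (1 / 8) 2)⁻¹ * (Pp (1 / 512) 1)⁻¹ := by
        refine mul_le_mul (mul_le_mul h1 h2 (by positivity) ?_) h3 (by positivity) ?_
        · exact inv_nonneg.mpr (Pp_pos (by norm_num) _).le
        · exact mul_nonneg (inv_nonneg.mpr (Pp_pos (by norm_num) _).le)
            (inv_nonneg.mpr (Pp_pos (by norm_num) _).le)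
    _ < 0.5036 := by
        simp only [Pp, prod_range_succ, prod_range_zero]
        norm_num

lemma lt_Rp3 : 0.5034 < Rp 3 := by
  have e : Rp 3 = (gp (1 / 2))⁻¹ * (gp (1 / 8))⁻¹ * (gp (1 / 512))⁻¹ := by
    unfold Rp
    rw [prod_range_succ, prod_range_succ, prod_range_succ, prod_range_zero, one_mul, xq_zero, xq_one,
      xq_two]
  have h1 := inv_gp_ge (x := 1 / 2) (by norm_num) (by norm_num) 8
  have h2 := inv_gp_ge (x := 1 / 8) (by norm_num) (by norm_num) 2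
  have h3 := inv_gp_ge (x := 1 / 512) (by norm_num) (by norm_num) 1
  have g1 : 0 < gp (1 / 2) := gp_pos (by norm_num) (by norm_num)
  have g2 : 0 < gp (1 / 8) := gp_pos (by norm_num) (by norm_num)
  have g3 : 0 < gp (1 / 512) := gp_pos (by norm_num) (by norm_num)
  rw [e]
  have p1 : 0.56868 < (Pp (1 / 2) 8)⁻¹ * (1 - (1 / 2) ^ (2 * 8 + 1) / (1 - (1 / 2 : ℝ) ^ 2)) := by
    simp only [Pp, prod_range_succ, prod_range_zero]
    norm_num
  have p2 : 0.8871 < (Pp (1 / 8) 2)⁻¹ * (1 - (1 / 8) ^ (2 * 2 + 1) / (1 - (1 / 8 : ℝ) ^ 2)) := by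
    simp only [Pp, prod_range_succ, prod_range_zero]
    norm_num
  have p3 : 0.99805 < (Pp (1 / 512) 1)⁻¹ * (1 - (1 / 512) ^ (2 * 1 + 1) / (1 - (1 / 512 : ℝ) ^ 2)) := by
    simp only [Pp, prod_range_succ, prod_range_zero]
    norm_num
  calc (0.5034 : ℝ) < 0.56868 * 0.8871 * 0.99805 := by norm_num
    _ ≤ (gp (1 / 2))⁻¹ * (gp (1 / 8))⁻¹ * (gp (1 / 512))⁻¹ := by
        refine mul_le_mul (mul_le_mul (p1.le.trans h1) (p2.le.trans h2) (by norm_num) (by positivity))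
          (p3.le.trans h3) (by norm_num) (by positivity)

lemma Rp_bds (m : ℕ) : 0.5033 < Rp (3 + m) ∧ Rp (3 + m) < 0.5036 := by
  constructor
  · have h1 := Rp_ge m
    have h2 := lt_Rp3
    have h2m0 : (0 : ℝ) < 1 / 2 ^ m := by positivity
    have h3 : (1 - 4 / 2 ^ 27 * (1 - 1 / (2 : ℝ) ^ m)) ≥ 1 - 4 / 2 ^ 27 := by nlinarith
    nlinarith
  · exact lt_of_le_of_lt (Rp_le m) Rp3_lt

/-! ### the order of `2` -/

lemma dvd_two_pow (n : ℕ) : 3 ^ (n + 1) ∣ 2 ^ (3 ^ n) + 1 := by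
  induction n with
  | zero => norm_num
  | succ n ih =>
    have e : 2 ^ (3 ^ (n + 1)) + 1 = (2 ^ (3 ^ n) + 1) * ((2 ^ (3 ^ n)) ^ 2 + 1 - 2 ^ (3 ^ n)) := by
      rw [pow_succ 3 n, pow_mul]
      set a := 2 ^ (3 ^ n) with ha
      have h1 : 1 ≤ a := Nat.one_le_two_pow
      have h2 : a ≤ a ^ 2 + 1 := by nlinarith
      zify [h2]
      ring
    have h3 : 3 ∣ (2 ^ (3 ^ n)) ^ 2 + 1 - 2 ^ (3 ^ n) := by
      have h4 : 3 ∣ 2 ^ (3 ^ n) + 1 := dvd_trans (dvd_pow_self 3 (by omega)) ih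
      set a := 2 ^ (3 ^ n) with ha
      obtain ⟨c, hc⟩ := h4
      have h1 : 1 ≤ a := Nat.one_le_two_pow
      have h2 : a ≤ a ^ 2 + 1 := by nlinarith
      have hc1 : 1 ≤ c := by omega
      refine (Nat.dvd_iff_mod_eq_zero).mpr ?_ |> fun h => h
      have h5 : a = 3 * c - 1 := by omega
      have h6 : a ^ 2 + 1 - a = 3 * (3 * c ^ 2 - 3 * c + 1) := by
        have h7 : 3 * c ≤ 3 * c ^ 2 := by nlinarith
        have h8 : (a : ℤ) = 3 * c - 1 := by omega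
        zify [h2, h7]
        rw [h8]
        ring
      rw [h6]
      exact Nat.mul_mod_right _ _
    rw [e, pow_succ]
    exact mul_dvd_mul ih h3

lemma orderOf_two (n : ℕ) : orderOf (2 : ZMod (3 ^ (n + 1))) = 2 * 3 ^ n := by
  have h1 : orderOf ((2 : ZMod (3 ^ (n + 1))) ^ 2) = 3 ^ n := by
    have h2 := ZMod.orderOf_one_add_mul_prime (p := 3) Nat.prime_three (by norm_num) 1 (by norm_num) n
    have e : (1 + ((3 : ℕ) : ZMod (3 ^ (n + 1))) * ((1 : ℤ) : ZMod (3 ^ (n + 1)))) = 2 ^ 2 := by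
      push_cast
      norm_num
    rw [e] at h2
    exact h2
  rw [orderOf_pow' _ (by norm_num)] at h1
  have h3 : 2 ∣ orderOf (2 : ZMod (3 ^ (n + 1))) := by
    have h4 : (2 : ZMod (3 ^ (n + 1))) ^ orderOf (2 : ZMod (3 ^ (n + 1))) = 1 := pow_orderOf_eq_one _
    have h5 : (3 : ℕ) ∣ 3 ^ (n + 1) := dvd_pow_self 3 (by omega)
    have h6 := congrArg (ZMod.castHom h5 (ZMod 3)) h4
    rw [map_pow, map_one, map_ofNat] at h6
    have h7 : orderOf (2 : ZMod 3) ∣ orderOf (2 : ZMod (3 ^ (n + 1))) := orderOf_dvd_of_pow_eq_one h6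
    have h8 : orderOf (2 : ZMod 3) = 2 := by
      rw [orderOf_eq_iff (by norm_num)]
      refine ⟨by decide, fun m hm hm0 => ?_⟩
      have : m = 1 := by omega
      subst this
      decide
    rw [h8] at h7
    exact h7
  rw [Nat.gcd_eq_right h3] at h1
  omega

lemma totient_three_pow (n : ℕ) : Nat.totient (3 ^ (n + 1)) = 2 * 3 ^ n := by
  rw [Nat.totient_prime_pow Nat.prime_three (by omega)]
  simp [mul_comm]

end Pool.Agent.Q92.GL
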